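import Pool.Agent.Helper88.Ric.Stmts

/-!
# MP_092777_ag, module CL: argument principle with holomorphic parameter
-/

set_option autoImplicit false

open scoped ContDiff Manifold Topology MatrixGroups Real
open Complex Metric Set

noncomputable section

namespace RicP

/-! ### Parametric circle integrals -/

/-- continuity of circle integrals with parameters -/
theorem CL_cont {X : Type*} [TopologicalSpace X] (S : Set X) (h : X → ℂ → ℂ) (c : X → ℂ) (ρ : ℝ)
    (hc : ContinuousOn c S)
    (hh : ContinuousOn (fun p : X × ℂ => h p.1 p.2)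
      {p : X × ℂ | p.1 ∈ S ∧ p.2 ∈ sphere (c p.1) |ρ|}) :
    ContinuousOn (fun x => ∮ z in C(c x, ρ), h x z) S := by
  rw [continuousOn_iff_continuous_domRestrict]
  have hc' : Continuous (fun x : S => c x) := by
    have := continuousOn_iff_continuous_domRestrict.mp hc
    exact this
  have h1 : Continuous (fun p : S × ℝ => circleMap (c p.1) ρ p.2) := by
    unfold circleMap
    exact (hc'.comp continuous_fst).add (by fun_prop)
  have h2 : Continuous (fun p : S × ℝ => h p.1 (circleMap (c p.1) ρ p.2)) := by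
    rw [continuousOn_iff_continuous_domRestrict] at hh
    have := hh.comp (f := fun p : S × ℝ => (⟨((p.1 : X), circleMap (c p.1) ρ p.2),
      ⟨p.1.2, circleMap_mem_sphere' _ _ _⟩⟩ : {p : X × ℂ | p.1 ∈ S ∧ p.2 ∈ sphere (c p.1) |ρ|}))
      (by
        apply Continuous.subtype_mk
        exact (continuous_subtype_val.comp continuous_fst).prodMk h1)
    exact this
  have h3 : Continuous (fun x : S => ∫ θ in (0:ℝ)..(2 * π),
      deriv (circleMap (c x) ρ) θ • h x (circleMap (c x) ρ θ)) := by
    apply intervalIntegral.continuous_parametric_intervalIntegral_of_continuous'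
    have h4 : Continuous (fun p : S × ℝ => deriv (circleMap (c p.1) ρ) p.2) := by
      simp only [deriv_circleMap]
      unfold circleMap
      fun_prop
    exact h4.smul h2
  exact h3

/-- swap of circle integrals -/
theorem CL_swap (f : ℂ → ℂ → ℂ) (a b : ℂ) (r ρ : ℝ) (hr : 0 ≤ r) (hρ : 0 ≤ ρ)
    (hf : ContinuousOn (fun p : ℂ × ℂ => f p.1 p.2) (sphere a r ×ˢ sphere b ρ)) :
    (∮ w in C(a, r), ∮ z in C(b, ρ), f w z) = ∮ z in C(b, ρ), ∮ w in C(a, r), f w z := by
  have h1 : Continuous (fun p : ℝ × ℝ => (circleMap a r p.1, circleMap b ρ p.2)) := by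
    unfold circleMap
    fun_prop
  have h2 : Continuous (fun p : ℝ × ℝ => f (circleMap a r p.1) (circleMap b ρ p.2)) := by
    rw [continuousOn_iff_continuous_domRestrict] at hf
    have := hf.comp (f := fun p : ℝ × ℝ => (⟨(circleMap a r p.1, circleMap b ρ p.2),
      ⟨circleMap_mem_sphere _ hr _, circleMap_mem_sphere _ hρ _⟩⟩ :
        (sphere a r ×ˢ sphere b ρ : Set (ℂ × ℂ))))
      (by
        apply Continuous.subtype_mk
        exact h1)
    exact this
  have h3 : Continuous (fun p : ℝ × ℝ => deriv (circleMap a r) p.1 *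
      (deriv (circleMap b ρ) p.2 * f (circleMap a r p.1) (circleMap b ρ p.2))) := by
    have h4 : Continuous (fun p : ℝ × ℝ => deriv (circleMap a r) p.1) := by
      simp only [deriv_circleMap]
      unfold circleMap
      fun_prop
    have h5 : Continuous (fun p : ℝ × ℝ => deriv (circleMap b ρ) p.2) := by
      simp only [deriv_circleMap]
      unfold circleMap
      fun_prop
    exact h4.mul (h5.mul h2)
  have h6 := MeasureTheory.intervalIntegral_intervalIntegral_swap (a := 0) (b := 2 * π)
    (c := 0) (d := 2 * π)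
    (F := fun x y => deriv (circleMap a r) x *
      (deriv (circleMap b ρ) y * f (circleMap a r x) (circleMap b ρ y))) (by
      apply MeasureTheory.IntegrableOn.mono_set (t := (Set.Icc 0 (2 * π)) ×ˢ (Set.Icc 0 (2 * π)))
      · exact h3.continuousOn.integrableOn_compact (isCompact_Icc.prod isCompact_Icc)
      · apply Set.prod_mono
        · rw [Set.uIoc_of_le (by positivity)]
          exact Set.Ioc_subset_Icc_self
        · rw [Set.uIoc_of_le (by positivity)]
          exact Set.Ioc_subset_Icc_self)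
  simp only [circleIntegral, smul_eq_mul]
  simp only [intervalIntegral.integral_const_mul] at h6
  rw [h6]
  congr 1
  ext y
  rw [← intervalIntegral.integral_const_mul]
  congr 1
  ext x
  ring

/-- holomorphic dependence of a circle integral on a parameter -/
theorem CL_hol (h : ℂ → ℂ → ℂ) (S : Set ℂ) (hS : IsOpen S) (z₀ : ℂ) (ρ : ℝ) (hρ : 0 ≤ ρ)
    (hc : ContinuousOn (fun p : ℂ × ℂ => h p.1 p.2) (S ×ˢ sphere z₀ ρ))
    (hd : ∀ z ∈ sphere z₀ ρ, DifferentiableOn ℂ (fun s => h s z) S) :
    DifferentiableOn ℂ (fun s => ∮ z in C(z₀, ρ), h s z) S := by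
  have hFc : ContinuousOn (fun s => ∮ z in C(z₀, ρ), h s z) S := by
    apply CL_cont S h (fun _ => z₀) ρ continuousOn_const
    rw [abs_of_nonneg hρ]
    apply hc.mono
    intro p hp
    exact ⟨hp.1, hp.2⟩
  intro s hs
  obtain ⟨r, hr, hrS⟩ := Metric.nhds_basis_closedBall.mem_iff.mp (hS.mem_nhds hs)
  have hci : CircleIntegrable (fun s => ∮ z in C(z₀, ρ), h s z) s r :=
    (hFc.mono (sphere_subset_closedBall.trans hrS)).circleIntegrable hr.le
  have h1 := hasFPowerSeriesOn_cauchy_integral (R := ⟨r, hr.le⟩) (f := fun s =>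
    ∮ z in C(z₀, ρ), h s z) (c := s) hci (by exact hr)
  have h2 : AnalyticAt ℂ (fun w => (2 * π * I : ℂ)⁻¹ • ∮ z' in C(s, r),
      (z' - w)⁻¹ • ∮ z in C(z₀, ρ), h z' z) s := h1.analyticAt
  apply DifferentiableAt.differentiableWithinAt
  refine h2.differentiableAt.congr_of_eventuallyEq ?_
  filter_upwards [Metric.ball_mem_nhds s hr] with w hw
  -- Cauchy
  have h3 : ∀ z ∈ sphere z₀ ρ, h w z = (2 * π * I : ℂ)⁻¹ • ∮ z' in C(s, r), (z' - w)⁻¹ • h z' z := by
    intro z hz
    have := (hd z hz).mono hrS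
    have h4 := DifferentiableOn.circleIntegral_sub_inv_smul (c := s) (R := r) this hw
    rw [h4, smul_smul, inv_mul_cancel₀ (by
      have := Real.pi_pos
      simp [Complex.ofReal_ne_zero, Real.pi_ne_zero]), one_smul]
  have h4 : (∮ z in C(z₀, ρ), h w z) =
      ∮ z in C(z₀, ρ), (2 * π * I : ℂ)⁻¹ • ∮ z' in C(s, r), (z' - w)⁻¹ • h z' z :=
    circleIntegral.integral_congr hρ h3
  rw [h4, circleIntegral.integral_smul, ← CL_swap _ _ _ _ _ hr.le hρ]
  · congr 1
    congr 1
    ext z'
    rw [circleIntegral.integral_smul]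
  · simp only [smul_eq_mul]
    apply ContinuousOn.mul
    · apply ContinuousOn.inv₀
      · fun_prop
      · rintro ⟨a, b⟩ ⟨ha, hb⟩ h0
        simp only at ha h0 hw
        rw [sub_eq_zero] at h0
        rw [h0] at ha
        rw [mem_sphere] at ha
        rw [mem_ball] at hw
        linarith
    · apply hc.mono
      apply Set.prod_mono _ subset_rfl
      exact sphere_subset_closedBall.trans hrS

/-- the partial derivative of a holomorphic function of two variables -/
theorem CL_dz (V : Set E) (hV : IsOpen V) (G : E → ℂ) (hG : DifferentiableOn ℂ G V) :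
    ContinuousOn (fun p : E => deriv (fun w => G (p.1, w)) p.2) V ∧
    ∀ z : ℂ, DifferentiableOn ℂ (fun s => deriv (fun w => G (s, w)) z) {s | (s, z) ∈ V} := by
  -- local formula
  have key : ∀ s z : ℂ, (s, z) ∈ V → ∃ r > 0, closedBall s (2 * r) ×ˢ closedBall z (2 * r) ⊆ V ∧
      ∀ s' ∈ closedBall s r, ∀ z' ∈ closedBall z r, deriv (fun w => G (s', w)) z' =
        (2 * π * I : ℂ)⁻¹ • ∮ w in C(z', r), ((w - z') ^ 2)⁻¹ • G (s', w) := by
    intro s z hsz
    obtain ⟨r, hr, hrS⟩ := Metric.nhds_basis_closedBall.mem_iff.mp (hV.mem_nhds hsz)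
    rw [← closedBall_prod_same] at hrS
    refine ⟨r / 2, by positivity, ?_, ?_⟩
    · convert hrS using 3 <;> ring
    · intro s' hs' z' hz'
      have hs2 : s' ∈ closedBall s r := closedBall_subset_closedBall (by linarith) hs'
      have h1 : DifferentiableOn ℂ (fun w => G (s', w)) {w | (s', w) ∈ V} := by
        apply hG.comp (by fun_prop)
        intro w hw
        exact hw
      have h2 : IsOpen {w | (s', w) ∈ V} := hV.preimage (by fun_prop)
      have h3 := Complex.cderiv_eq_deriv (r := r / 2) (z := z') h2 h1 (by positivity) (by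
        intro w hw
        apply hrS
        refine ⟨hs2, ?_⟩
        simp only [mem_closedBall] at hw hz' ⊢
        calc dist w z ≤ dist w z' + dist z' z := dist_triangle _ _ _
          _ ≤ r / 2 + r / 2 := add_le_add hw hz'
          _ = r := by ring)
      rw [← h3, cderiv]
  constructor
  · intro p hp
    obtain ⟨s, z⟩ := p
    obtain ⟨r, hr, hr1, hr2⟩ := key s z hp
    have h1 : ContinuousOn (fun p : E => (2 * π * I : ℂ)⁻¹ •
        ∮ w in C(p.2, r), ((w - p.2) ^ 2)⁻¹ • G (p.1, w)) (closedBall s r ×ˢ closedBall z r) := by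
      refine ContinuousOn.smul (f := fun _ => (2 * π * I : ℂ)⁻¹) continuousOn_const ?_
      apply CL_cont _ (fun (p : E) w => ((w - p.2) ^ 2)⁻¹ • G (p.1, w)) (fun p => p.2) r
        continuousOn_snd
      rw [abs_of_pos hr]
      apply ContinuousOn.fun_smul
      · apply ContinuousOn.inv₀
        · fun_prop
        · rintro ⟨a, b⟩ ⟨ha, hb⟩
          simp only at ha hb ⊢
          have : b - a.2 ≠ 0 := by
            rw [sub_ne_zero]
            intro h
            rw [h, mem_sphere, dist_self] at hb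
            linarith
          positivity
      · apply hG.continuousOn.comp (by fun_prop)
        rintro ⟨a, b⟩ ⟨ha, hb⟩
        simp only at ha hb ⊢
        apply hr1
        refine ⟨closedBall_subset_closedBall (by linarith) ha.1, ?_⟩
        have ha2 := ha.2
        simp only [mem_closedBall, mem_sphere] at hb ha2 ⊢
        calc dist b z ≤ dist b a.2 + dist a.2 z := dist_triangle _ _ _
          _ ≤ r + r := add_le_add hb.le ha2
          _ = 2 * r := by ring
    have hn : closedBall s r ×ˢ closedBall z r ∈ 𝓝 (s, z) := by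
      rw [nhds_prod_eq]
      exact Filter.prod_mem_prod (closedBall_mem_nhds _ hr) (closedBall_mem_nhds _ hr)
    have h2 := (h1.continuousAt hn)
    apply ContinuousAt.continuousWithinAt
    apply h2.congr
    filter_upwards [hn] with q hq
    exact (hr2 q.1 hq.1 q.2 hq.2).symm
  · intro z s hs
    obtain ⟨r, hr, hr1, hr2⟩ := key s z hs
    have h1 : DifferentiableOn ℂ (fun s' => (2 * π * I : ℂ)⁻¹ •
        ∮ w in C(z, r), ((w - z) ^ 2)⁻¹ • G (s', w)) (ball s r) := by
      refine DifferentiableOn.fun_smul (differentiableOn_const _) ?_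
      apply CL_hol (fun s' w => ((w - z) ^ 2)⁻¹ • G (s', w)) _ isOpen_ball z r hr.le
      · apply ContinuousOn.fun_smul
        · apply ContinuousOn.inv₀
          · fun_prop
          · rintro ⟨a, b⟩ ⟨ha, hb⟩
            simp only at ha hb ⊢
            have : b - z ≠ 0 := by
              rw [sub_ne_zero]
              intro h
              rw [h, mem_sphere, dist_self] at hb
              linarith
            positivity
        · apply hG.continuousOn.comp (by fun_prop)
          rintro ⟨a, b⟩ ⟨ha, hb⟩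
          simp only at ha hb ⊢
          apply hr1
          exact ⟨closedBall_subset_closedBall (by linarith) (ball_subset_closedBall ha),
            closedBall_subset_closedBall (by linarith) (sphere_subset_closedBall hb)⟩
      · intro w hw
        refine DifferentiableOn.fun_smul (differentiableOn_const _) ?_
        apply hG.comp (by fun_prop)
        intro s' hs'
        apply hr1
        exact ⟨closedBall_subset_closedBall (by linarith) (ball_subset_closedBall hs'),
            closedBall_subset_closedBall (by linarith) (sphere_subset_closedBall hw)⟩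
    apply DifferentiableAt.differentiableWithinAt
    refine ((h1 s (mem_ball_self hr)).differentiableAt (ball_mem_nhds _ hr)).congr_of_eventuallyEq ?_
    filter_upwards [ball_mem_nhds s hr] with s' hs'
    exact hr2 s' (ball_subset_closedBall hs') z (mem_closedBall_self hr.le)

/-! ### The argument principle -/

/-- splitting off one zero -/
theorem CL_split (f : ℂ → ℂ) (K : Set ℂ) (hf : AnalyticOnNhd ℂ f K) (a : ℂ) (haK : a ∈ K)
    (ha : analyticOrderAt f a ≠ ⊤) : ∃ g : ℂ → ℂ, AnalyticOnNhd ℂ g K ∧ g a ≠ 0 ∧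
      ∀ z, f z = (z - a) ^ analyticOrderNatAt f a * g z := by
  classical
  obtain ⟨g, hg, hga, hfg⟩ := (hf a haK).analyticOrderAt_ne_top.mp ha
  refine ⟨fun z => if z = a then g a else f z / (z - a) ^ analyticOrderNatAt f a, ?_, ?_, ?_⟩
  · intro z hz
    by_cases hza : z = a
    · subst hza
      refine hg.congr ?_
      filter_upwards [hfg] with w hw
      split_ifs with h
      · rw [h]
      · rw [hw, smul_eq_mul, mul_div_cancel_left₀]
        exact pow_ne_zero _ (sub_ne_zero.mpr h)
    · have h1 : AnalyticAt ℂ (fun z => f z / (z - a) ^ analyticOrderNatAt f a) z := by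
        apply (hf z hz).div (by fun_prop)
        exact pow_ne_zero _ (sub_ne_zero.mpr hza)
      refine h1.congr ?_
      filter_upwards [isOpen_ne.mem_nhds hza] with w hw
      rw [if_neg hw]
  · simpa using hga
  · intro z
    by_cases hza : z = a
    · subst hza
      have := hfg.self_of_nhds
      simpa using this
    · simp only [if_neg hza]
      rw [mul_div_cancel₀]
      exact pow_ne_zero _ (sub_ne_zero.mpr hza)

theorem CL_fac (K : Set ℂ) (Z : Finset ℂ) : ∀ f : ℂ → ℂ, AnalyticOnNhd ℂ f K → (↑Z ⊆ K) →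
    (∀ a ∈ Z, analyticOrderAt f a ≠ ⊤) → ∃ g : ℂ → ℂ, AnalyticOnNhd ℂ g K ∧ (∀ a ∈ Z, g a ≠ 0) ∧
      ∀ z, f z = (∏ a ∈ Z, (z - a) ^ analyticOrderNatAt f a) * g z := by
  classical
  induction Z using Finset.induction_on with
  | empty =>
    intro f hf _ _
    exact ⟨f, hf, by simp, by simp⟩
  | insert a Z haZ ih =>
    intro f hf hZK hZ
    rw [Finset.coe_insert, Set.insert_subset_iff] at hZK
    obtain ⟨g₁, hg₁, hg₁a, hfg₁⟩ := CL_split f K hf a hZK.1 (hZ a (Finset.mem_insert_self _ _))
    have hfun : f = (fun z => (z - a) ^ analyticOrderNatAt f a) * g₁ := by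
      ext z
      exact hfg₁ z
    have hord : ∀ b ∈ Z, analyticOrderAt g₁ b = analyticOrderAt f b := by
      intro b hb
      have hba : b ≠ a := fun h => haZ (h ▸ hb)
      have h1 : AnalyticAt ℂ (fun z => (z - a) ^ analyticOrderNatAt f a) b := by fun_prop
      have h2 : analyticOrderAt (fun z => (z - a) ^ analyticOrderNatAt f a) b = 0 := by
        rw [h1.analyticOrderAt_eq_zero]
        exact pow_ne_zero _ (sub_ne_zero.mpr hba)
      conv_rhs => rw [hfun]
      rw [analyticOrderAt_mul h1 (hg₁ b (hZK.2 hb)), h2, zero_add]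
    obtain ⟨g, hg, hgZ, hg1⟩ := ih g₁ hg₁ hZK.2 (fun b hb => by
      rw [hord b hb]
      exact hZ b (Finset.mem_insert_of_mem hb))
    have hg2 : ∀ z, g₁ z = (∏ b ∈ Z, (z - b) ^ analyticOrderNatAt f b) * g z := by
      intro z
      rw [hg1 z]
      congr 1
      apply Finset.prod_congr rfl
      intro b hb
      simp only [analyticOrderNatAt, hord b hb]
    refine ⟨g, hg, ?_, ?_⟩
    · intro b hb
      rcases Finset.mem_insert.mp hb with rfl | hb
      · intro h0
        apply hg₁a
        rw [hg2, h0, mul_zero]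
      · exact hgZ b hb
    · intro z
      rw [Finset.prod_insert haZ, mul_assoc, ← hg2, ← hfg₁]

/-- the argument principle -/
theorem CL_arg (f u : ℂ → ℂ) (z₀ : ℂ) (ρ : ℝ) (hρ : 0 < ρ)
    (hf : AnalyticOnNhd ℂ f (closedBall z₀ ρ)) (hu : AnalyticOnNhd ℂ u (closedBall z₀ ρ))
    (hs : ∀ z ∈ sphere z₀ ρ, f z ≠ 0) (Z : Finset ℂ)
    (hZ : ∀ z, z ∈ Z ↔ z ∈ ball z₀ ρ ∧ f z = 0) (hZo : ∀ a ∈ Z, analyticOrderAt f a ≠ ⊤) :
    (∮ z in C(z₀, ρ), u z * (deriv f z / f z)) =
      (2 * π * I) * ∑ a ∈ Z, (analyticOrderNatAt f a : ℂ) * u a := by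
  classical
  obtain ⟨g, hg, hgZ, hfg⟩ := CL_fac (closedBall z₀ ρ) Z f hf (by
    intro z hz
    exact ball_subset_closedBall ((hZ z).mp hz).1) hZo
  have hg0 : ∀ z ∈ closedBall z₀ ρ, g z ≠ 0 := by
    intro z hz h0
    have h1 : f z = 0 := by rw [hfg, h0, mul_zero]
    by_cases h2 : z ∈ sphere z₀ ρ
    · exact hs z h2 h1
    · have h3 : z ∈ ball z₀ ρ := by
        rw [mem_ball]
        rw [mem_closedBall] at hz
        rw [mem_sphere] at h2
        exact lt_of_le_of_ne hz h2
      exact hgZ z ((hZ z).mpr ⟨h3, h1⟩) h0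
  have hfun : f = (fun z => ∏ a ∈ Z, (z - a) ^ analyticOrderNatAt f a) * g := by
    ext z
    exact hfg z
  have hne : ∀ z ∈ sphere z₀ ρ, ∀ a ∈ Z, z - a ≠ 0 := by
    intro z hz a ha
    rw [sub_ne_zero]
    intro h
    subst h
    exact hs z hz ((hZ z).mp ha).2
  have hlog : ∀ z ∈ sphere z₀ ρ, u z * (deriv f z / f z) =
      (∑ a ∈ Z, (analyticOrderNatAt f a : ℂ) * ((z - a)⁻¹ * u z)) + u z * (deriv g z / g z) := by
    intro z hz
    have h1 : logDeriv f z = (∑ a ∈ Z, (analyticOrderNatAt f a : ℂ) * (z - a)⁻¹) + logDeriv g z := by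
      conv_lhs => rw [hfun]
      rw [Pi.mul_def, logDeriv_mul]
      · congr 1
        rw [logDeriv_prod]
        · apply Finset.sum_congr rfl
          intro a ha
          rw [logDeriv_fun_pow (by fun_prop)]
          congr 1
          rw [logDeriv_apply]
          simp
        · intro a ha
          exact pow_ne_zero _ (hne z hz a ha)
        · intro a ha
          fun_prop
      · rw [Finset.prod_ne_zero_iff]
        intro a ha
        exact pow_ne_zero _ (hne z hz a ha)
      · exact hg0 z (sphere_subset_closedBall hz)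
      · fun_prop
      · exact (hg z (sphere_subset_closedBall hz)).differentiableAt
    rw [logDeriv_apply, logDeriv_apply] at h1
    rw [h1, mul_add, Finset.mul_sum]
    congr 1
    apply Finset.sum_congr rfl
    intro a ha
    ring
  rw [circleIntegral.integral_congr hρ.le hlog]
  have hcu : ContinuousOn u (sphere z₀ ρ) := hu.continuousOn.mono sphere_subset_closedBall
  have hterm : ∀ a ∈ Z, CircleIntegrable (fun z => (analyticOrderNatAt f a : ℂ) *
      ((z - a)⁻¹ * u z)) z₀ ρ := by
    intro a ha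
    apply ContinuousOn.circleIntegrable hρ.le
    apply continuousOn_const.mul
    apply ContinuousOn.mul _ hcu
    apply ContinuousOn.inv₀ (by fun_prop)
    intro z hz
    exact hne z hz a ha
  have hrest : AnalyticOnNhd ℂ (fun z => u z * (deriv g z / g z)) (closedBall z₀ ρ) := by
    intro z hz
    exact (hu z hz).mul ((hg z hz).deriv.div (hg z hz) (hg0 z hz))
  rw [circleIntegral.integral_add]
  · have h0 : (∮ z in C(z₀, ρ), u z * (deriv g z / g z)) = 0 := by
      apply DiffContOnCl.circleIntegral_eq_zero hρ.le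
      exact hrest.differentiableOn.diffContOnCl_ball subset_rfl
    rw [h0, add_zero, circleIntegral.integral_fun_sum hterm, Finset.mul_sum]
    apply Finset.sum_congr rfl
    intro a ha
    have h1 : (∮ z in C(z₀, ρ), (analyticOrderNatAt f a : ℂ) * ((z - a)⁻¹ * u z)) =
        (analyticOrderNatAt f a : ℂ) • ∮ z in C(z₀, ρ), ((z - a)⁻¹ • u z) := by
      rw [← circleIntegral.integral_smul]
      rfl
    rw [h1, hu.differentiableOn.circleIntegral_sub_inv_smul ((hZ a).mp ha).1]
    simp only [smul_eq_mul]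
    ring
  · exact CircleIntegrable.fun_sum _ hterm
  · apply ContinuousOn.circleIntegrable hρ.le
    exact hrest.continuousOn.mono sphere_subset_closedBall

/-! ### The cluster lemma -/

theorem CL_slice (V : Set E) (G : E → ℂ) (hV : IsOpen V) (hG : DifferentiableOn ℂ G V) (s : ℂ) :
    AnalyticOnNhd ℂ (fun z => G (s, z)) {z | (s, z) ∈ V} := by
  have h2 : IsOpen {w | (s, w) ∈ V} := hV.preimage (by fun_prop)
  apply DifferentiableOn.analyticOnNhd _ h2
  apply hG.comp (by fun_prop)
  intro w hw
  exact hw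

/-- zeros of an analytic function not vanishing on the circle -/
theorem CL_zeros (f : ℂ → ℂ) (z₀ : ℂ) (ρ : ℝ) (hρ : 0 < ρ)
    (hf : AnalyticOnNhd ℂ f (closedBall z₀ ρ)) (hs : ∀ z ∈ sphere z₀ ρ, f z ≠ 0) :
    {z | z ∈ ball z₀ ρ ∧ f z = 0}.Finite ∧ ∀ z ∈ closedBall z₀ ρ, analyticOrderAt f z ≠ ⊤ := by
  have hpre : IsPreconnected (closedBall z₀ ρ) := (convex_closedBall z₀ ρ).isPreconnected
  obtain ⟨z₁, hz₁⟩ : (sphere z₀ ρ).Nonempty := NormedSpace.sphere_nonempty.mpr hρ.le
  have hno : ∀ z ∈ closedBall z₀ ρ, ¬ ∃ᶠ w in 𝓝[≠] z, f w = 0 := by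
    intro z hz hfr
    have := hf.eqOn_zero_of_preconnected_of_frequently_eq_zero hpre hz hfr
    exact hs z₁ hz₁ (this (sphere_subset_closedBall hz₁))
  constructor
  · by_contra hinf
    have hinf' : {z | z ∈ ball z₀ ρ ∧ f z = 0}.Infinite := hinf
    obtain ⟨z, hz, hacc⟩ := hinf'.exists_accPt_of_subset_isCompact
      (isCompact_closedBall z₀ ρ) (fun z hz => ball_subset_closedBall hz.1)
    apply hno z hz
    rw [accPt_iff_frequently] at hacc
    rw [frequently_nhdsWithin_iff]
    apply hacc.mono
    rintro w ⟨hw1, hw2⟩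
    exact ⟨hw2.2, hw1⟩
  · intro z hz h
    rw [analyticOrderAt_eq_top] at h
    apply hno z hz
    apply Filter.Eventually.frequently
    exact h.filter_mono nhdsWithin_le_nhds

theorem st_CL : ST_CL := by
  classical
  intro V G s₀ z₀ hV h0V hG hord
  -- radius
  obtain ⟨ε, hε, hεV⟩ := Metric.nhds_basis_closedBall.mem_iff.mp (hV.mem_nhds h0V)
  rw [← closedBall_prod_same] at hεV
  have han0 : AnalyticAt ℂ (fun z => G (s₀, z)) z₀ := CL_slice V G hV hG s₀ z₀ h0V
  have hev : ∀ᶠ z in 𝓝[≠] z₀, G (s₀, z) ≠ 0 := by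
    rcases han0.eventually_eq_zero_or_eventually_ne_zero with h | h
    · exact absurd (analyticOrderAt_eq_top.mpr h) hord
    · exact h
  rw [eventually_nhdsWithin_iff, Metric.eventually_nhds_iff_ball] at hev
  obtain ⟨ε', hε', hne'⟩ := hev
  refine ⟨min ε (ε' / 2), by positivity, ?_⟩
  intro ρ hρ hρ₀
  have hρε : ρ ≤ ε := hρ₀.trans (min_le_left _ _)
  have hρε' : ρ < ε' := by
    have := hρ₀.trans (min_le_right _ _)
    linarith
  have hne : ∀ z ∈ closedBall z₀ ρ, z ≠ z₀ → G (s₀, z) ≠ 0 := by
    intro z hz hz0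
    apply hne' z _ hz0
    rw [mem_ball]
    rw [mem_closedBall] at hz
    linarith
  -- delta
  have htube : ∀ᶠ s in 𝓝 s₀, ∀ z ∈ sphere z₀ ρ, G (s, z) ≠ 0 := by
    apply (isCompact_sphere z₀ ρ).eventually_forall_of_forall_eventually
    intro z hz
    have hzV : (s₀, z) ∈ V := by
      apply hεV
      refine ⟨mem_closedBall_self hε.le, ?_⟩
      exact closedBall_subset_closedBall hρε (sphere_subset_closedBall hz)
    have hz0 : G (s₀, z) ≠ 0 := by
      apply hne z (sphere_subset_closedBall hz)
      rintro rfl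
      rw [mem_sphere, dist_self] at hz
      linarith
    have hc : ContinuousAt G (s₀, z) := hG.continuousOn.continuousAt (hV.mem_nhds hzV)
    exact hc.eventually_ne hz0
  rw [Metric.eventually_nhds_iff_ball] at htube
  obtain ⟨δ', hδ', htube⟩ := htube
  set δ := min δ' ε with hδdef
  have hδ : 0 < δ := lt_min hδ' hε
  have hVs : ∀ s ∈ ball s₀ δ, ∀ z ∈ closedBall z₀ ρ, (s, z) ∈ V := by
    intro s hs z hz
    apply hεV
    refine ⟨?_, closedBall_subset_closedBall hρε hz⟩
    exact ball_subset_closedBall (ball_subset_ball (min_le_right _ _) hs)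
  have hsph : ∀ s ∈ ball s₀ δ, ∀ z ∈ sphere z₀ ρ, G (s, z) ≠ 0 := by
    intro s hs
    exact htube s (ball_subset_ball (min_le_left _ _) hs)
  have hslice : ∀ F : E → ℂ, DifferentiableOn ℂ F V → ∀ s ∈ ball s₀ δ,
      AnalyticOnNhd ℂ (fun z => F (s, z)) (closedBall z₀ ρ) := by
    intro F hF s hs
    exact (CL_slice V F hV hF s).mono (fun z hz => hVs s hs z hz)
  have hfin : ∀ s ∈ ball s₀ δ, {z | z ∈ ball z₀ ρ ∧ G (s, z) = 0}.Finite := fun s hs =>
    (CL_zeros _ z₀ ρ hρ (hslice G hG s hs) (hsph s hs)).1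
  -- the sum as an integral
  have hsum : ∀ u : E → ℂ, DifferentiableOn ℂ u V → ∀ s ∈ ball s₀ δ,
      ∑ᶠ z ∈ ball z₀ ρ, (analyticOrderNatAt (fun w => G (s, w)) z : ℂ) * u (s, z) =
        (2 * π * I)⁻¹ * ∮ z in C(z₀, ρ), u (s, z) * (deriv (fun w => G (s, w)) z / G (s, z)) := by
    intro u hu s hs
    have hZ := CL_arg (fun w => G (s, w)) (fun w => u (s, w)) z₀ ρ hρ (hslice G hG s hs)
      (hslice u hu s hs) (hsph s hs) (hfin s hs).toFinset (by
        intro z
        simp) (by
        intro a ha
        apply (CL_zeros _ z₀ ρ hρ (hslice G hG s hs) (hsph s hs)).2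
        have : a ∈ ball z₀ ρ ∧ G (s, a) = 0 := by simpa using ha
        exact ball_subset_closedBall this.1)
    rw [hZ, ← mul_assoc, inv_mul_cancel₀ Complex.two_pi_I_ne_zero, one_mul]
    apply finsum_mem_eq_sum_of_inter_support_eq
    ext z
    simp only [mem_inter_iff, Function.mem_support, Set.Finite.coe_toFinset, mem_ofPred_eq]
    constructor
    · rintro ⟨h1, h2⟩
      refine ⟨⟨h1, ?_⟩, h2⟩
      by_contra h3
      apply h2
      have h4 : analyticOrderAt (fun w => G (s, w)) z = 0 := by
        rw [analyticOrderAt_eq_zero]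
        right
        exact h3
      simp [analyticOrderNatAt, h4]
    · rintro ⟨⟨h1, _⟩, h2⟩
      exact ⟨h1, h2⟩
  have hhol : ∀ u : E → ℂ, DifferentiableOn ℂ u V → DifferentiableOn ℂ (fun s =>
      ∑ᶠ z ∈ ball z₀ ρ, (analyticOrderNatAt (fun w => G (s, w)) z : ℂ) * u (s, z))
      (ball s₀ δ) := by
    intro u hu
    apply DifferentiableOn.congr _ (fun s hs => hsum u hu s hs)
    refine DifferentiableOn.fun_mul (differentiableOn_const _) ?_
    obtain ⟨hdz1, hdz2⟩ := CL_dz V hV G hG
    have hsub : ball s₀ δ ×ˢ sphere z₀ ρ ⊆ V := by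
      rintro ⟨s, z⟩ ⟨hs, hz⟩
      exact hVs s hs z (sphere_subset_closedBall hz)
    apply CL_hol (fun s z => u (s, z) * (deriv (fun w => G (s, w)) z / G (s, z))) _ isOpen_ball
      z₀ ρ hρ.le
    · apply ContinuousOn.mul
      · exact hu.continuousOn.mono hsub
      · apply ContinuousOn.div
        · exact hdz1.mono hsub
        · exact hG.continuousOn.mono hsub
        · rintro ⟨s, z⟩ ⟨hs, hz⟩
          exact hsph s hs z hz
    · intro z hz
      have hsub' : ball s₀ δ ⊆ {s | (s, z) ∈ V} := fun s hs =>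
        hVs s hs z (sphere_subset_closedBall hz)
      have hcomp : ∀ F : E → ℂ, DifferentiableOn ℂ F V →
          DifferentiableOn ℂ (fun s => F (s, z)) (ball s₀ δ) := by
        intro F hF
        apply hF.comp (by fun_prop)
        intro s hs
        exact hsub' hs
      apply DifferentiableOn.fun_mul (hcomp u hu)
      apply DifferentiableOn.fun_div
      · exact (hdz2 z).mono hsub'
      · exact hcomp G hG
      · intro s hs
        exact hsph s hs z hz
  refine ⟨δ, hδ, hVs, hsph, hfin, ?_, hhol⟩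
  -- constancy of the number of zeros
  have hN : ∀ s ∈ ball s₀ δ,
      ((∑ᶠ z ∈ ball z₀ ρ, analyticOrderNatAt (fun w => G (s, w)) z : ℕ) : ℂ) =
      ∑ᶠ z ∈ ball z₀ ρ, (analyticOrderNatAt (fun w => G (s, w)) z : ℂ) * (fun _ : E => (1:ℂ)) (s, z) := by
    intro s hs
    simp only [mul_one]
    have h5 : ∀ z, z ∈ ball z₀ ρ → G (s, z) ≠ 0 → analyticOrderNatAt (fun w => G (s, w)) z = 0 := by
      intro z _ h3
      have h4 : analyticOrderAt (fun w => G (s, w)) z = 0 := by
        rw [analyticOrderAt_eq_zero]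
        right
        exact h3
      simp [analyticOrderNatAt, h4]
    rw [finsum_mem_eq_sum_of_inter_support_eq (t := (hfin s hs).toFinset), Nat.cast_sum,
      finsum_mem_eq_sum_of_inter_support_eq (t := (hfin s hs).toFinset)]
    · ext z
      simp only [mem_inter_iff, Function.mem_support, Set.Finite.coe_toFinset, mem_ofPred_eq]
      constructor
      · rintro ⟨h1, h2⟩
        refine ⟨⟨h1, ?_⟩, h2⟩
        by_contra h3
        exact h2 (by rw [h5 z h1 h3, Nat.cast_zero])
      · rintro ⟨⟨h1, _⟩, h2⟩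
        exact ⟨h1, h2⟩
    · ext z
      simp only [mem_inter_iff, Function.mem_support, Set.Finite.coe_toFinset, mem_ofPred_eq]
      constructor
      · rintro ⟨h1, h2⟩
        refine ⟨⟨h1, ?_⟩, h2⟩
        by_contra h3
        exact h2 (h5 z h1 h3)
      · rintro ⟨⟨h1, _⟩, h2⟩
        exact ⟨h1, h2⟩
  have hcont : ContinuousOn (fun s => ((∑ᶠ z ∈ ball z₀ ρ,
      analyticOrderNatAt (fun w => G (s, w)) z : ℕ) : ℂ)) (ball s₀ δ) :=
    (hhol (fun _ => 1) (differentiableOn_const _)).continuousOn.congr (fun s hs => hN s hs)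
  have hcont' : ContinuousOn (fun s => ∑ᶠ z ∈ ball z₀ ρ,
      analyticOrderNatAt (fun w => G (s, w)) z) (ball s₀ δ) := by
    rw [continuousOn_iff_continuous_domRestrict] at hcont ⊢
    rw [Nat.isClosedEmbedding_coe_real.isEmbedding.continuous_iff]
    exact Complex.continuous_re.comp hcont
  intro s hs
  have hconst := (convex_ball s₀ δ).isPreconnected.constant hcont' hs (mem_ball_self hδ)
  rw [hconst]
  -- at `s₀`
  rw [finsum_mem_eq_sum_of_inter_support_eq (t := {z₀})]
  · simp
  · ext z
    simp only [mem_inter_iff, Function.mem_support, Finset.coe_singleton, mem_singleton_iff]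
    constructor
    · rintro ⟨h1, h2⟩
      refine ⟨?_, h2⟩
      by_contra h3
      apply h2
      have h4 : analyticOrderAt (fun w => G (s₀, w)) z = 0 := by
        rw [analyticOrderAt_eq_zero]
        right
        exact hne z (ball_subset_closedBall h1) h3
      simp [analyticOrderNatAt, h4]
    · rintro ⟨rfl, h2⟩
      exact ⟨mem_ball_self hρ, h2⟩

end RicP
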