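import Pool.Agent.Helper88.Ric.Stmts

/-!
# MP_092777_ag, module HGOOD: the potential in the charts `(τ, z)` is good
-/

set_option autoImplicit false

open scoped ContDiff Manifold Topology MatrixGroups Real
open Complex Metric Set

noncomputable section

namespace RicP

theorem HGOOD_Dd (b : ℝ × ℝ) (ψ ψ' : ℝ × ℝ → ℝ) (p : ℝ × ℝ) (h : ψ =ᶠ[𝓝 p] ψ') :
    Dd b ψ =ᶠ[𝓝 p] Dd b ψ' := by
  filter_upwards [h.eventuallyEq_nhds] with q hq
  unfold Dd
  rw [hq.fderiv_eq]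

theorem HGOOD_ten (ψ ψ' : ℝ × ℝ → ℝ) (p b₁ b₂ : ℝ × ℝ) (h : ψ =ᶠ[𝓝 p] ψ') :
    tenOf ψ p b₁ b₂ = tenOf ψ' p b₁ b₂ := by
  have h1 := HGOOD_Dd b₁ ψ ψ' p h
  have h2 := HGOOD_Dd b₂ ψ ψ' p h
  have h11 := HGOOD_Dd b₁ _ _ p h1
  have h12 := HGOOD_Dd b₁ _ _ p h2
  have h22 := HGOOD_Dd b₂ _ _ p h2
  have h111 := HGOOD_Dd b₁ _ _ p h11
  have h112 := HGOOD_Dd b₁ _ _ p h12
  have h122 := HGOOD_Dd b₁ _ _ p h22
  have h222 := HGOOD_Dd b₂ _ _ p h22
  have h1111 := HGOOD_Dd b₁ _ _ p h111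
  have h1112 := HGOOD_Dd b₁ _ _ p h112
  have h1122 := HGOOD_Dd b₁ _ _ p h122
  have h1222 := HGOOD_Dd b₁ _ _ p h222
  have h2222 := HGOOD_Dd b₂ _ _ p h222
  unfold tenOf
  rw [h11.self_of_nhds, h12.self_of_nhds, h22.self_of_nhds, h111.self_of_nhds,
    h112.self_of_nhds, h122.self_of_nhds, h222.self_of_nhds, h1111.self_of_nhds,
    h1112.self_of_nhds, h1122.self_of_nhds, h1222.self_of_nhds, h2222.self_of_nhds]

theorem st_HGOOD (hHC : ST_HCURV) (hCE : ST_CERTH) (hCU : ST_CUT) (hSM : ST_SMF) :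
    ST_HGOOD := by
  obtain ⟨ε, hε, hε', hcut⟩ := hCU
  refine ⟨ε, hε, hε', ?_⟩
  intro N hN x hx
  have hN' : (0 : ℝ) < N := by exact_mod_cast hN
  obtain ⟨hx1, hx2⟩ := hx
  have hτ : 0 < x.1.im := by linarith
  have hopen : IsOpen {p : ℝ × ℝ | 0 < p.1} := isOpen_lt continuous_const continuous_fst
  set L : ℝ := 4 * π / N * x.1.im with hL
  set T : ℝ := 4 * π * x.2.im with hT
  have hLpos : 0 < L := by positivity
  have hL' : L = 4 * π * x.1.im / N := by rw [hL]; ring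
  have hL2 : L < 37 / 20 := by rw [hL']; exact hx2
  have hfr : ∃ b₁ b₂ : ℝ × ℝ, b₁.1 * b₂.2 - b₁.2 * b₂.1 ≠ 0 ∧
      (tenOf (Feps ε) (L, T) b₁ b₂).Cond := by
    rcases le_or_gt L (2 * ε) with h | h
    · exact hcut L T hLpos h
    · obtain ⟨b₁, b₂, hb, hc⟩ := hCE L T hLpos hL2
      refine ⟨b₁, b₂, hb, ?_⟩
      rw [HGOOD_ten (Feps ε) (fun p => FU p + FD p) (L, T) b₁ b₂]
      · exact hc
      · have h1 : IsOpen {p : ℝ × ℝ | 2 * ε < p.1} := isOpen_lt continuous_const continuous_fst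
        filter_upwards [h1.mem_nhds (show (L, T) ∈ {p : ℝ × ℝ | 2 * ε < p.1} from h)] with p hp
        unfold Feps
        have h2 : Real.smoothTransition (p.1 / ε - 1) = 1 := by
          apply Real.smoothTransition.one_of_one_le
          have hp' : 2 * ε < p.1 := hp
          have : 2 < p.1 / ε := by
            rw [lt_div_iff₀ hε]
            exact hp'
          linarith
        rw [h2, one_mul]
  obtain ⟨b₁, b₂, hb, hc⟩ := hfr
  have hgood := hHC (Feps ε) {p | 0 < p.1} hopen (hSM.2 ε hε) (4 * π / N) (4 * π) (by positivity)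
    (by positivity) x hLpos b₁ b₂ hb hc
  have hfun : potH N ε = fun y : E => Feps ε (4 * π / N * y.1.im, 4 * π * y.2.im) := by
    ext y
    unfold potH
    congr 2
    ring
  rw [hfun]
  exact hgood x rfl

end RicP
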