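import Pool.Agent.Helper88.Ric.Stmts

/-!
# MP_092777_ag, module FINAL: the final statement from the modules
-/

set_option autoImplicit false

open scoped ContDiff Manifold Topology MatrixGroups Real LinearAlgebra.Projectivization
open Complex Metric Set

noncomputable section

namespace RicP

theorem st_FINAL (hET : ST_ETALE) (hMOD : ST_MOD) (hGOOD : ST_GOOD) (hNP : ST_NP) :
    FinalStatement := by
  obtain ⟨M⟩ := hMOD
  obtain ⟨ε, hε, hgood⟩ := hGOOD
  -- choice of `N`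
  obtain ⟨N, hN, hNε⟩ : ∃ N : ℕ, NOK N ∧ 5 * π / N ≤ ε := by
    obtain ⟨n, hn⟩ := exists_nat_gt (5 * π / ε)
    refine ⟨4 * (n + 2), ⟨⟨n + 2, rfl⟩, by omega⟩, ?_⟩
    have h1 : (0 : ℝ) < ((4 * (n + 2) : ℕ) : ℝ) := by positivity
    rw [div_le_iff₀ h1]
    rw [div_lt_iff₀ hε] at hn
    push_cast
    have h2 : (0 : ℝ) ≤ n := by positivity
    nlinarith
  obtain ⟨t, ht⟩ := hNP M N hN
  have hG := hgood M N hN hNε t
  obtain ⟨X, iT, iC, p, hM, hC, hT2, hconn, hK, hrel, hlift⟩ := hET (ricData M N ε t) hG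
  refine ⟨X, iT, iC, hM, hC, hT2, hconn, hK, ?_⟩
  rintro ⟨n, f, hinj, hhol⟩
  apply ht
  have hU : ∀ i : Idx M N, (ricData M N ε t).U i = Uof i := by
    intro i
    rcases i with q | ck
    · rfl
    · rfl
  refine ⟨n, fun i x => f (p i x), ?_, ?_⟩
  · intro i j x hx y hy
    have hx' : x ∈ (ricData M N ε t).U i := by rw [hU]; exact hx
    have hy' : y ∈ (ricData M N ε t).U j := by rw [hU]; exact hy
    have h1 := hrel i j x hx' y hy'
    rw [hinj.eq_iff, h1]
    rfl
  · intro i x hx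
    have hx' : x ∈ (ricData M N ε t).U i := by rw [hU]; exact hx
    obtain ⟨V, hV, hxV, _, F, hF, hFy⟩ := hlift n f hhol i x hx'
    exact ⟨V, hV, hxV, F, hF, hFy⟩

end RicP
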